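import Pool.Agent.N659.HB.Stm11

/-!
Project GH (helper659), part ASYJ (helper27; adapted from helper281's ASYV and helper887's ASYG):
choice of the numbers, Gaussian disorder in high dimension.
-/

set_option autoImplicit false

namespace Pool.Agent.N27.GH.AsyJ

open Filter Pool.Agent.N659.HB
open scoped Topology

/-- the constant in the lower bound of `etaG` -/
noncomputable def h0 (A c : ℝ) : ℝ := c / (360 * A)

/-- the constant in the bound of the denominator -/
noncomputable def K0 (A C : ℝ) : ℝ := 8 / A + 1 + 12 * C / A + 2 / A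

/-- the constant in the bound of `cG` -/
noncomputable def c1 (A C c : ℝ) : ℝ := h0 A c ^ 3 * (1 / A) ^ 2 / (4 * K0 A C ^ 4)

/-- the constant in the bound of `EX` -/
noncomputable def K1 (A C c : ℝ) : ℝ := 2 * K0 A C ^ 2 / h0 A c + 12 * C / A + 1

/-- the constant in the bound of `epsL` -/
noncomputable def K2 (A C c : ℝ) : ℝ := 512 * K1 A C c ^ 6 / c1 A C c ^ 3

/-- the constant in the bound of the error -/
noncomputable def K4 (A C c : ℝ) : ℝ := (8 * C / A + 1) ^ 2 * K2 A C c

theorem core (d n : ℕ) (A C c M s₂ L K : ℝ) (hA : 0 < A) (hC : 0 < C) (hc : 0 < c)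
    (hM : 1 ≤ M) (hK2 : 640 ≤ K) (hLK : K ≤ L) (hn1 : L ≤ n) (hn2 : (n : ℝ) ≤ 2 * L)
    (hs5 : K * L ^ 9 ≤ Real.sqrt d) (hMs : M ^ 2 * L ^ 14 ≤ Real.sqrt d) (hLe : Real.exp L = d)
    (hs2a : 1 / (2 * L ^ 2) ≤ s₂) (hs2b : s₂ ≤ 1 / L ^ 2)
    (k0 : C ≤ K) (k1 : 192 * C ≤ K) (k3 : 65536 * C ≤ K)
    (k5 : (144000 * C) ^ 2 * (16 * C) / c ^ 2 ≤ K)
    (k6 : 17280 * C ^ 2 / c ≤ K) (k7 : c / (2 * C) ≤ K) (k8 : 1 / (2 * C) ≤ K)
    (k9 : 32 / (A * c1 A C c) ≤ K) (k10 : 1024 * C * Real.exp 20 ≤ K) (k11 : 1 / (16 * C) ≤ K)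
    (k12 : 100 * K4 A C c / h0 A c ≤ K) (k13 : 2 * K4 A C c * A / C ≤ K) (k14 : K4 A C c ≤ K) :
    NJ n (2 * Real.sqrt d / A * M) (M ^ 2 * L ^ 10 / A) (2 * M * C * L / Real.sqrt d)
      (Real.sqrt (2 * M * C * L / Real.sqrt d
        * (4 * (2 * Real.sqrt d / A * M) / (M ^ 2 * L ^ 10 / A))))
      s₂ (M * c / Real.sqrt d) (M ^ 2 * C / (M ^ 2 * L ^ 10 / (2 * Real.sqrt d) * Real.sqrt d))
      (2 * Real.sqrt d / A * (4 * d)) (Real.exp (-(L ^ 2) / 8)) := by
  set x : ℝ := (d : ℝ) with hx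
  set s : ℝ := Real.sqrt x with hs
  have hL2 : 640 ≤ L := hK2.trans hLK
  have hL1 : 1 ≤ L := by linarith only [hL2]
  have hL0 : 0 < L := by linarith only [hL2]
  have hM0 : 0 < M := by linarith only [hM]
  have hK0' : 0 < K := by linarith only [hK2]
  have hpow : ∀ k : ℕ, 1 ≤ k → L ≤ L ^ k := fun k hk => le_self_pow₀ hL1 (by omega)
  have hpw : ∀ k m : ℕ, k ≤ m → L ^ k ≤ L ^ m := fun k m hk => pow_le_pow_right₀ hL1 hk
  have hM2 : 1 ≤ M ^ 2 := one_le_pow₀ hM
  have hMM : M ≤ M ^ 2 := le_self_pow₀ hM two_ne_zero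
  have hL9s : L ^ 9 ≤ s := by
    refine le_trans ?_ hs5
    have : 0 ≤ L ^ 9 := by positivity
    nlinarith only [this, hK2]
  have hKs : K ≤ s := by
    have := hpow 9 (by norm_num)
    linarith only [hLK, this, hL9s]
  have hs0 : 0 < s := by linarith only [hKs, hK0']
  have hs1 : 1 ≤ s := by linarith only [hKs, hK2]
  have hx0 : 0 < x := Real.sqrt_pos.1 hs0
  have hss : s * s = x := Real.mul_self_sqrt hx0.le
  have hsx : s ≤ x := by nlinarith only [hss, hs1]
  have hx1 : 1 ≤ x := by linarith only [hsx, hs1]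
  have hKx : K ≤ x := hKs.trans hsx
  have hxx : x ≤ x ^ 2 := le_self_pow₀ hx1 two_ne_zero
  have hMk : ∀ k : ℕ, k ≤ 14 → M ^ 2 * L ^ k ≤ s := fun k hk =>
    (mul_le_mul_of_nonneg_left (hpw k 14 hk) (by positivity)).trans hMs
  have hMs2 : M ≤ s := by
    have := hMk 0 (by norm_num)
    rw [pow_zero, mul_one] at this
    linarith only [hMM, this]
  have hh0 : 0 < h0 A c := by unfold h0; positivity
  have hK00 : 0 < K0 A C := by unfold K0; positivity
  have hc1 : 0 < c1 A C c := by unfold c1; positivity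
  have hK1 : 0 < K1 A C c := by unfold K1; positivity
  have hK2' : 0 < K2 A C c := by unfold K2; positivity
  have hK4 : 0 < K4 A C c := by unfold K4; positivity
  have hb : 2 * M * C * L / s * (4 * (2 * s / A * M) / (M ^ 2 * L ^ 10 / A)) =
      16 * C / L ^ 9 := by
    field_simp
    ring
  have hκpos : 0 < 16 * C / L ^ 9 := by positivity
  have h4α : 4 * (2 * s / A * M) / (M ^ 2 * L ^ 10 / A) = 8 * s / (M * L ^ 10) := by
    field_simp
    ring
  have hΛe : M ^ 2 * C / (M ^ 2 * L ^ 10 / (2 * s) * s) = 2 * C / L ^ 10 := by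
    field_simp
  have hαb : 2 * s / A * M * (2 * M * C * L / s) = 4 * C / A * (M ^ 2 * L) := by
    field_simp
    ring
  set κ : ℝ := Real.sqrt (2 * M * C * L / s * (4 * (2 * s / A * M) / (M ^ 2 * L ^ 10 / A))) with hκ
  have hκ0 : 0 < κ := by rw [hκ, hb]; exact Real.sqrt_pos.2 hκpos
  have hκsq : κ ^ 2 = 16 * C / L ^ 9 := by
    rw [hκ, Real.sq_sqrt (by rw [hb]; exact hκpos.le), hb]
  have hn0 : 1 ≤ n := by
    have : (1 : ℝ) ≤ n := hL1.trans hn1
    exact_mod_cast this
  have hs20 : 0 < s₂ := lt_of_lt_of_le (by positivity) hs2a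
  have hs21 : s₂ ≤ 1 := by
    refine hs2b.trans ?_
    rw [div_le_one (by positivity)]
    exact one_le_pow₀ hL1
  -- the quantities
  have hη : h0 A c / x ≤ etaG (2 * s / A * M) s₂ (M * c / s) := by
    have e : etaG (2 * s / A * M) s₂ (M * c / s) = M ^ 2 * s₂ * c / (180 * A) := by
      unfold etaG
      field_simp
      ring
    rw [e]
    have h1 : 1 / (2 * x) ≤ s₂ := by
      refine le_trans ?_ hs2a
      apply one_div_le_one_div_of_le (by positivity)
      have := hpw 2 9 (by norm_num)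
      linarith only [this, hL9s, hsx]
    calc h0 A c / x = 1 * (1 / (2 * x)) * c / (180 * A) := by
          unfold h0
          field_simp
          ring
      _ ≤ M ^ 2 * s₂ * c / (180 * A) := by gcongr
  have hη0 : 0 < etaG (2 * s / A * M) s₂ (M * c / s) := lt_of_lt_of_le (by positivity) hη
  have hαb1 : 2 * s / A * M * (2 * M * C * L / s) ≤ 4 * C / A * x := by
    rw [hαb]
    have := hMk 1 (by norm_num)
    rw [pow_one] at this
    exact mul_le_mul_of_nonneg_left (this.trans hsx) (by positivity)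
  set Dv := 2 * s / A * (4 * x) + 1 + 3 * (2 * s / A * M) * (2 * M * C * L / s) +
        2 * (M ^ 2 * L ^ 10 / A) with hDv
  have hDD : Dv ≤ K0 A C * x ^ 2 := by
    have e : Dv = 8 / A * (s * x) + 1 + 3 * (2 * s / A * M * (2 * M * C * L / s)) +
        2 / A * (M ^ 2 * L ^ 10) := by
      rw [hDv]
      field_simp
      ring
    rw [e]
    unfold K0
    have a1 : s * x ≤ x ^ 2 := by nlinarith only [hx1, hsx]
    have a2 : 1 ≤ x ^ 2 := by linarith only [hxx, hx1]
    have a4 : M ^ 2 * L ^ 10 ≤ x ^ 2 := by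
      have := hMk 10 (by norm_num)
      linarith only [hxx, this, hsx]
    have b1 : 8 / A * (s * x) ≤ 8 / A * x ^ 2 := mul_le_mul_of_nonneg_left a1 (by positivity)
    have b3 : 4 * C / A * x ≤ 4 * C / A * x ^ 2 := mul_le_mul_of_nonneg_left hxx (by positivity)
    have b4 : 2 / A * (M ^ 2 * L ^ 10) ≤ 2 / A * x ^ 2 :=
      mul_le_mul_of_nonneg_left a4 (by positivity)
    have e2 : (8 / A + 1 + 12 * C / A + 2 / A) * x ^ 2 =
      8 / A * x ^ 2 + x ^ 2 + 3 * (4 * C / A * x ^ 2) + 2 / A * x ^ 2 := by ring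
    rw [e2]
    linarith only [a2, b1, b3, b4, hαb1]
  have hDD0 : 0 < Dv := by rw [hDv]; positivity
  have hcX : c1 A C c / x ^ 11 ≤ cG (2 * s / A * M) (M ^ 2 * L ^ 10 / A) (2 * M * C * L / s) s₂
      (M * c / s) (2 * s / A * (4 * x)) := by
    unfold cG
    rw [← hDv]
    have h1 : 1 / A ≤ M ^ 2 * L ^ 10 / A := by
      refine div_le_div_of_nonneg_right ?_ hA.le
      have : 1 ≤ L ^ 10 := one_le_pow₀ hL1
      exact one_le_mul_of_one_le_of_one_le hM2 this
    have e3 : c1 A C c / x ^ 11 =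
        (h0 A c / x) ^ 3 * (1 / A) ^ 2 / (4 * (K0 A C * x ^ 2) ^ 4) := by
      unfold c1
      field_simp
    rw [e3]
    gcongr
  have hcX0 : 0 < cG (2 * s / A * M) (M ^ 2 * L ^ 10 / A) (2 * M * C * L / s) s₂ (M * c / s)
      (2 * s / A * (4 * x)) := lt_of_lt_of_le (by positivity) hcX
  have hα1 : 2 * s / A * M ≤ 2 / A * x := by
    calc 2 * s / A * M ≤ 2 * s / A * s := by gcongr
      _ = 2 / A * (s * s) := by ring
      _ = 2 / A * x := by rw [hss]
  have hEX : EX (2 * s / A * M) (M ^ 2 * L ^ 10 / A) (2 * M * C * L / s) s₂ (M * c / s)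
      (2 * s / A * (4 * x)) ≤ K1 A C c * x ^ 5 := by
    unfold EX
    rw [← hDv]
    have h1 : Dv ^ 2 / (etaG (2 * s / A * M) s₂ (M * c / s) / 2) ≤
        (K0 A C * x ^ 2) ^ 2 / (h0 A c / x / 2) := by gcongr
    have h2 : (K0 A C * x ^ 2) ^ 2 / (h0 A c / x / 2) = 2 * K0 A C ^ 2 / h0 A c * x ^ 5 := by
      field_simp
    have hx5 : x ≤ x ^ 5 := le_self_pow₀ hx1 (by norm_num)
    have h3 : 4 * C / A * x ≤ 4 * C / A * x ^ 5 := mul_le_mul_of_nonneg_left hx5 (by positivity)
    have h4 : 3 * (2 * s / A * M) * (2 * M * C * L / s) =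
      3 * (2 * s / A * M * (2 * M * C * L / s)) := by ring
    have e : K1 A C c * x ^ 5 = 2 * K0 A C ^ 2 / h0 A c * x ^ 5 + 3 * (4 * C / A * x ^ 5) + x ^ 5 := by
      unfold K1
      ring
    rw [e, h4]
    linarith only [h1, h2, h3, hαb1, hx5, hx1]
  have hEX0 : 0 ≤ EX (2 * s / A * M) (M ^ 2 * L ^ 10 / A) (2 * M * C * L / s) s₂ (M * c / s)
      (2 * s / A * (4 * x)) := by
    unfold EX
    rw [← hDv]
    positivity
  have hτ : Real.exp (-(L ^ 2) / 8) ≤ 1 / x ^ 80 := by
    rw [← hLe, ← Real.exp_nat_mul, one_div, ← Real.exp_neg]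
    apply Real.exp_le_exp.2
    push_cast
    nlinarith only [hL2]
  have heps : epsL (2 * s / A * M) (M ^ 2 * L ^ 10 / A) (2 * M * C * L / s) s₂ (M * c / s)
      (2 * s / A * (4 * x)) (Real.exp (-(L ^ 2) / 8)) ≤ K2 A C c * (1 / x ^ 17) := by
    unfold epsL
    calc Real.exp (-(L ^ 2) / 8) *
          EX (2 * s / A * M) (M ^ 2 * L ^ 10 / A) (2 * M * C * L / s) s₂ (M * c / s)
            (2 * s / A * (4 * x)) ^ 6 /
          (cG (2 * s / A * M) (M ^ 2 * L ^ 10 / A) (2 * M * C * L / s) s₂ (M * c / s)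
            (2 * s / A * (4 * x)) / 8) ^ 3
        ≤ 1 / x ^ 80 * (K1 A C c * x ^ 5) ^ 6 / (c1 A C c / x ^ 11 / 8) ^ 3 := by gcongr
      _ = K2 A C c * (1 / x ^ 17) := by
        unfold K2
        field_simp
        ring
  have heps0 : 0 ≤ epsL (2 * s / A * M) (M ^ 2 * L ^ 10 / A) (2 * M * C * L / s) s₂ (M * c / s)
      (2 * s / A * (4 * x)) (Real.exp (-(L ^ 2) / 8)) := by
    unfold epsL
    have := (Real.exp_pos (-(L ^ 2) / 8)).le
    positivity
  have hP : (2 * (2 * s / A * M) * (2 * M * C * L / s) + 1) ^ 2 *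
      epsL (2 * s / A * M) (M ^ 2 * L ^ 10 / A) (2 * M * C * L / s) s₂ (M * c / s)
      (2 * s / A * (4 * x)) (Real.exp (-(L ^ 2) / 8)) ≤ K4 A C c * (1 / x ^ 15) := by
    have h1 : 2 * (2 * s / A * M) * (2 * M * C * L / s) + 1 ≤ (8 * C / A + 1) * x := by
      have e : 2 * (2 * s / A * M) * (2 * M * C * L / s) =
        2 * (2 * s / A * M * (2 * M * C * L / s)) := by ring
      have e2 : (8 * C / A + 1) * x = 2 * (4 * C / A * x) + x := by ring
      rw [e, e2]
      linarith only [hαb1, hx1]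
    calc _ ≤ ((8 * C / A + 1) * x) ^ 2 * (K2 A C c * (1 / x ^ 17)) := by gcongr
      _ = K4 A C c * (1 / x ^ 15) := by
        unfold K4
        field_simp
  have hx15 : ∀ B : ℝ, B ≤ K → B * (1 / x ^ 15) ≤ 1 / x := by
    intro B hB
    calc B * (1 / x ^ 15) ≤ x * (1 / x ^ 15) :=
          mul_le_mul_of_nonneg_right (hB.trans hKx) (by positivity)
      _ = 1 / x ^ 14 := by field_simp
      _ ≤ 1 / x := by
          apply one_div_le_one_div_of_le hx0
          exact le_self_pow₀ hx1 (by norm_num)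
  have hxinv : 1 / x ≤ 1 := by
    rw [div_le_one hx0]
    exact hx1
  have e8p : 2 * s / A * M / (cG (2 * s / A * M) (M ^ 2 * L ^ 10 / A) (2 * M * C * L / s) s₂
      (M * c / s) (2 * s / A * (4 * x)) / 8) * (2 * ((4 * n * κ) ^ n) ^ 2) ≤
      2 * M * C * L / s * κ := by
    have h1 : 2 * s / A * M / (cG (2 * s / A * M) (M ^ 2 * L ^ 10 / A) (2 * M * C * L / s) s₂
        (M * c / s) (2 * s / A * (4 * x)) / 8) ≤ 16 / (A * c1 A C c) * x ^ 12 := by
      calc 2 * s / A * M / (cG (2 * s / A * M) (M ^ 2 * L ^ 10 / A) (2 * M * C * L / s) s₂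
            (M * c / s) (2 * s / A * (4 * x)) / 8)
          ≤ 2 / A * x / (c1 A C c / x ^ 11 / 8) := by gcongr
        _ = 16 / (A * c1 A C c) * x ^ 12 := by
            field_simp
            ring
    have h2 : ((4 * n * κ) ^ n) ^ 2 ≤ 1 / x ^ 20 := by
      have e : ((4 * n * κ) ^ n) ^ 2 = (16 * (n : ℝ) ^ 2 * (16 * C / L ^ 9)) ^ n := by
        rw [← pow_mul, mul_comm n 2, pow_mul, mul_pow, hκsq]
        congr 1
        ring
      rw [e]
      have h3 : 16 * (n : ℝ) ^ 2 * (16 * C / L ^ 9) ≤ Real.exp (-20) := by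
        have h4 : (n : ℝ) ^ 2 ≤ (2 * L) ^ 2 := pow_le_pow_left₀ (Nat.cast_nonneg n) hn2 2
        calc 16 * (n : ℝ) ^ 2 * (16 * C / L ^ 9)
            ≤ 16 * (2 * L) ^ 2 * (16 * C / L ^ 9) := by
              gcongr
          _ = 1024 * C / L ^ 7 := by field_simp; ring
          _ ≤ Real.exp (-20) := by
              rw [Real.exp_neg, div_le_iff₀ (by positivity), inv_mul_eq_div,
                le_div_iff₀ (Real.exp_pos _)]
              have := hpow 7 (by norm_num)
              linarith only [k10, hLK, this]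
      have h5 : Real.exp (-20) ^ n ≤ 1 / x ^ 20 := by
        rw [← Real.exp_nat_mul, ← hLe, ← Real.exp_nat_mul, one_div, ← Real.exp_neg]
        apply Real.exp_le_exp.2
        push_cast
        linarith only [hn1]
      exact (pow_le_pow_left₀ (by positivity) h3 n).trans h5
    have h4 : 1 / x ≤ 2 * M * C * L / s * κ := by
      have hCL : 1 ≤ 2 * M * C * L := by
        rw [div_le_iff₀ (by positivity)] at k8
        have h2 : K * (2 * C) ≤ L * (2 * C) :=
          mul_le_mul_of_nonneg_right hLK (by positivity)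
        have h3 : 1 * (2 * C * L) ≤ M * (2 * C * L) :=
          mul_le_mul_of_nonneg_right hM (by positivity)
        linarith only [k8, h2, h3]
      have a1 : 1 / s ≤ 2 * M * C * L / s := div_le_div_of_nonneg_right hCL hs0.le
      have a2 : 1 / s ≤ κ := by
        refine (sq_le_sq₀ (by positivity) hκ0.le).1 ?_
        rw [hκsq, div_pow, one_pow, sq s, hss]
        rw [div_le_div_iff₀ hx0 (by positivity)]
        rw [div_le_iff₀ (by positivity)] at k11
        have b1 : L ^ 9 ≤ K * (16 * C) * L ^ 9 := by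
          have : 0 ≤ L ^ 9 := by positivity
          have h9 := mul_le_mul_of_nonneg_right k11 this
          linarith only [h9]
        have b2 : K * (16 * C) * L ^ 9 = 16 * C * (K * L ^ 9) := by ring
        have b3 : 16 * C * (K * L ^ 9) ≤ 16 * C * x :=
          mul_le_mul_of_nonneg_left (hs5.trans hsx) (by positivity)
        linarith only [b1, b2, b3]
      calc 1 / x = 1 / s * (1 / s) := by rw [← hss]; field_simp
        _ ≤ 2 * M * C * L / s * κ := mul_le_mul a1 a2 (by positivity) (by positivity)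
    refine le_trans ?_ h4
    calc _ ≤ 16 / (A * c1 A C c) * x ^ 12 * (2 * (1 / x ^ 20)) :=
          mul_le_mul h1 (mul_le_mul_of_nonneg_left h2 (by norm_num)) (by positivity) (by positivity)
      _ = 32 / (A * c1 A C c) * (1 / x ^ 8) := by
          field_simp
          ring
      _ ≤ x * (1 / x ^ 8) := mul_le_mul_of_nonneg_right (k9.trans hKx) (by positivity)
      _ = 1 / x ^ 7 := by field_simp
      _ ≤ 1 / x := by
          apply one_div_le_one_div_of_le hx0
          exact le_self_pow₀ hx1 (by norm_num)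
  refine
    { ng := ?_
      hτ := (Real.exp_pos _).le
      e8' := e8p
      e9 := ?_
      e10 := ?_
      e11 := ?_ }
  · refine
    { hn := hn0
      hα := by positivity
      hr := by positivity
      hb := by positivity
      hκ := hκ0
      hs := hs20
      hs1 := hs21
      hc := by positivity
      hΛ := by positivity
      hD := by positivity
      κ2 := by rw [hκsq, hb]
      e1 := ?_
      e2 := ?_
      e2' := ?_
      e3 := ?_
      e4 := ?_
      e5 := ?_
      e6 := ?_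
      e7 := ?_
      e8 := ?_ }
    · -- e1
      rw [hb, hΛe]
      rw [← mul_div_assoc, div_le_div_iff₀ (by positivity) (by positivity)]
      have h1 : 4 * (2 * C) * L ^ 9 ≤ 16 * C * L ^ 9 := by
        have : 0 ≤ C * L ^ 9 := by positivity
        linarith only [this]
      have h2 : 16 * C * L ^ 9 ≤ 16 * C * L ^ 10 :=
        mul_le_mul_of_nonneg_left (hpw 9 10 (by norm_num)) (by positivity)
      exact h1.trans h2
    · -- e2
      have e : 48 * (2 * s / A * M) * (2 * M * C * L / s) = 192 * C * (M ^ 2 * L) / A := by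
        field_simp
        ring
      rw [e]
      refine div_le_div_of_nonneg_right ?_ hA.le
      have h9 := hpow 9 (by norm_num)
      calc 192 * C * (M ^ 2 * L) ≤ L ^ 9 * (M ^ 2 * L) :=
            mul_le_mul_of_nonneg_right (by linarith only [k1, hLK, h9]) (by positivity)
        _ = M ^ 2 * L ^ 10 := by ring
    · -- e2'
      rw [h4α, div_le_div_iff₀ hs0 (by positivity)]
      have h1 : C ≤ L ^ 3 := by
        have := hpow 3 (by norm_num)
        linarith only [this, hLK, k0]
      have h2 : 2 * M * C * L * (M * L ^ 10) = 2 * (M ^ 2 * L ^ 11) * C := by ring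
      have h3 : 2 * (M ^ 2 * L ^ 11) * C ≤ 2 * (M ^ 2 * L ^ 11) * L ^ 3 :=
        mul_le_mul_of_nonneg_left h1 (by positivity)
      have h4 : 2 * (M ^ 2 * L ^ 11) * L ^ 3 = 2 * (M ^ 2 * L ^ 14) := by ring
      have h5 : 8 * s * s = 8 * x := by rw [← hss]; ring
      rw [h2, h5]
      linarith only [h3, h4, hMs, hsx, hx0]
    · -- e3
      have h1 : (64 * κ) ^ 2 ≤ 1 := by
        have e : (64 * κ) ^ 2 = 65536 * C / L ^ 9 := by
          rw [mul_pow, hκsq]; ring
        rw [e, div_le_one (by positivity)]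
        have := hpow 9 (by norm_num)
        linarith only [k3, hLK, this]
      have h2 : 0 ≤ 64 * κ := by positivity
      exact (sq_le_one_iff₀ h2).1 h1
    · -- e4
      have h1 : (32 * L * κ) ^ 2 ≤ 1 := by
        have e : (32 * L * κ) ^ 2 = 16384 * C / L ^ 7 := by
          rw [mul_pow, hκsq]; field_simp; ring
        rw [e, div_le_one (by positivity)]
        have := hpow 7 (by norm_num)
        linarith only [k3, hLK, this, hC]
      have h2 : 0 ≤ 32 * L * κ := by positivity
      have h3 : 32 * L * κ ≤ 1 := (sq_le_one_iff₀ h2).1 h1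
      have h4 : 16 * (n : ℝ) * κ ≤ 16 * (2 * L) * κ := by gcongr
      have h5 : 16 * (2 * L) * κ = 32 * L * κ := by ring
      linarith only [h3, h4, h5]
    · -- e5
      have h1 : (144000 * C * L ^ 3 * κ) ^ 2 ≤ c ^ 2 := by
        have e : (144000 * C * L ^ 3 * κ) ^ 2 = (144000 * C) ^ 2 * (16 * C) / L ^ 3 := by
          rw [mul_pow, hκsq]; field_simp
        rw [e, div_le_iff₀ (by positivity)]
        rw [div_le_iff₀ (by positivity)] at k5
        have := hpow 3 (by norm_num)
        calc (144000 * C) ^ 2 * (16 * C) ≤ K * c ^ 2 := k5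
          _ ≤ L ^ 3 * c ^ 2 := mul_le_mul_of_nonneg_right (hLK.trans this) (by positivity)
          _ = c ^ 2 * L ^ 3 := by ring
      have h2 : 144000 * C * L ^ 3 * κ ≤ c := (sq_le_sq₀ (by positivity) hc.le).1 h1
      calc 50 * (2 * M * C * L / s) * κ = M / (s * (1440 * L ^ 2)) * (144000 * C * L ^ 3 * κ) := by
            field_simp
            ring
        _ ≤ M / (s * (1440 * L ^ 2)) * c := mul_le_mul_of_nonneg_left h2 (by positivity)
        _ = 1 / (2 * L ^ 2) * (M * c / s) / 720 := by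
            field_simp
            ring
        _ ≤ s₂ * (M * c / s) / 720 := by gcongr
    · -- e6
      rw [hΛe, le_div_iff₀ (by positivity)]
      have e : 6 * (2 * M * C * L / s) * (2 * C / L ^ 10) * 720 =
          M / s * (17280 * C ^ 2 / L ^ 9) := by
        field_simp
        ring
      have e' : M * c / s = M / s * c := by
        field_simp
      rw [e, e']
      refine mul_le_mul_of_nonneg_left ?_ (by positivity)
      rw [div_le_iff₀ (by positivity)]
      rw [div_le_iff₀ hc] at k6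
      have h8 := hpow 9 (by norm_num)
      have : K ≤ L ^ 9 := by linarith only [hLK, h8]
      have h9 : K * c ≤ L ^ 9 * c := mul_le_mul_of_nonneg_right this hc.le
      linarith only [h9, k6]
    · -- e7
      rw [div_le_div_iff_of_pos_right hs0]
      rw [div_le_iff₀ (by positivity)] at k7
      have h2 : K * (2 * C) ≤ L * (2 * C) := mul_le_mul_of_nonneg_right hLK (by positivity)
      have h3 : M * c ≤ M * (L * (2 * C)) := mul_le_mul_of_nonneg_left (k7.trans h2) hM0.le
      linarith only [h3]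
    · -- e8
      refine le_trans ?_ e8p
      refine mul_le_mul_of_nonneg_right ?_ (by positivity)
      refine div_le_div_of_nonneg_left (by positivity) (by positivity) ?_
      linarith only [hcX0]
  · -- e9
    refine le_trans ?_ hη
    have h1 : 100 * K4 A C c ≤ K * h0 A c := by
      rw [div_le_iff₀ hh0] at k12
      exact k12
    calc 100 * ((2 * (2 * s / A * M) * (2 * M * C * L / s) + 1) ^ 2 *
          epsL (2 * s / A * M) (M ^ 2 * L ^ 10 / A) (2 * M * C * L / s) s₂ (M * c / s)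
          (2 * s / A * (4 * x)) (Real.exp (-(L ^ 2) / 8)))
        ≤ 100 * (K4 A C c * (1 / x ^ 15)) := mul_le_mul_of_nonneg_left hP (by norm_num)
      _ = (100 * K4 A C c) * (1 / x ^ 15) := by ring
      _ ≤ (K * h0 A c) * (1 / x ^ 15) := mul_le_mul_of_nonneg_right h1 (by positivity)
      _ = h0 A c * (K * (1 / x ^ 15)) := by ring
      _ ≤ h0 A c * (1 / x) := mul_le_mul_of_nonneg_left (hx15 K le_rfl) hh0.le
      _ = h0 A c / x := by ring
  · -- e10
    have h1 : 2 * K4 A C c * A ≤ K * C := by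
      rw [div_le_iff₀ hC] at k13
      exact k13
    have h2 : 8 * K4 A C c ≤ K * (4 * C / A) := by
      have h3 : K * (4 * C / A) = 4 * (K * C) / A := by ring
      rw [h3, le_div_iff₀ hA]
      linarith only [h1]
    calc 8 * ((2 * (2 * s / A * M) * (2 * M * C * L / s) + 1) ^ 2 *
          epsL (2 * s / A * M) (M ^ 2 * L ^ 10 / A) (2 * M * C * L / s) s₂ (M * c / s)
          (2 * s / A * (4 * x)) (Real.exp (-(L ^ 2) / 8)))
        ≤ 8 * (K4 A C c * (1 / x ^ 15)) := mul_le_mul_of_nonneg_left hP (by norm_num)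
      _ = (8 * K4 A C c) * (1 / x ^ 15) := by ring
      _ ≤ (K * (4 * C / A)) * (1 / x ^ 15) := mul_le_mul_of_nonneg_right h2 (by positivity)
      _ = 4 * C / A * (K * (1 / x ^ 15)) := by ring
      _ ≤ 4 * C / A * 1 :=
          mul_le_mul_of_nonneg_left ((hx15 K le_rfl).trans hxinv) (by positivity)
      _ ≤ 4 * C / A * (M ^ 2 * L) :=
          mul_le_mul_of_nonneg_left (one_le_mul_of_one_le_of_one_le hM2 hL1) (by positivity)
      _ = 2 * s / A * M * (2 * M * C * L / s) := hαb.symm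
  · -- e11
    exact hP.trans ((hx15 _ k14).trans hxinv)

theorem main : S_ASYJ := by
  intro A C c hA hC hc
  have hh0 : 0 < h0 A c := by unfold h0; positivity
  have hK00 : 0 < K0 A C := by unfold K0; positivity
  have hc1 : 0 < c1 A C c := by unfold c1; positivity
  have hK1 : 0 < K1 A C c := by unfold K1; positivity
  have hK2' : 0 < K2 A C c := by unfold K2; positivity
  have hK4 : 0 < K4 A C c := by unfold K4; positivity
  set K : ℝ := 640 + C + 192 * C + A + 65536 * C +
    (144000 * C) ^ 2 * (16 * C) / c ^ 2 +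
    17280 * C ^ 2 / c + c / (2 * C) + 1 / (2 * C) +
    32 / (A * c1 A C c) + 1024 * C * Real.exp 20 +
    1 / (16 * C) + 100 * K4 A C c / h0 A c + 2 * K4 A C c * A / C + K4 A C c with hK
  have p5 : 0 ≤ (144000 * C) ^ 2 * (16 * C) / c ^ 2 := by positivity
  have p6 : 0 ≤ 17280 * C ^ 2 / c := by positivity
  have p7 : 0 ≤ c / (2 * C) := by positivity
  have p8 : 0 ≤ 1 / (2 * C) := by positivity
  have p9 : 0 ≤ 32 / (A * c1 A C c) := by positivity
  have p10 : 0 ≤ 1024 * C * Real.exp 20 := by positivity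
  have p11 : 0 ≤ 1 / (16 * C) := by positivity
  have p12 : 0 ≤ 100 * K4 A C c / h0 A c := by positivity
  have p13 : 0 ≤ 2 * K4 A C c * A / C := by positivity
  have hK2 : 640 ≤ K := by
    rw [hK]; linarith only [p5, p6, p7, p8, p9, p10, p11, p12, p13, hK4, hA, hC]
  have hAK : A ≤ K := by
    rw [hK]; linarith only [p5, p6, p7, p8, p9, p10, p11, p12, p13, hK4, hA, hC]
  -- eventually
  have t1 : ∀ᶠ d : ℕ in atTop, K ≤ Real.log d :=
    (Real.tendsto_log_atTop.comp tendsto_natCast_atTop_atTop).eventually_ge_atTop K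
  have t2 : ∀ᶠ d : ℕ in atTop, K * Real.log d ^ 9 ≤ Real.sqrt d := by
    have hKpos : 0 < K := by linarith only [hK2]
    have h := isLittleO_log_rpow_rpow_atTop (s := (1 / 2 : ℝ)) 9 (by norm_num)
    have h2 := (h.def (c := 1 / K) (by positivity))
    have h3 := tendsto_natCast_atTop_atTop (R := ℝ) |>.eventually h2
    filter_upwards [h3, t1] with d hd hd1
    have hlog : 0 ≤ Real.log d := by linarith only [hd1, hKpos]
    have e : Real.log (d : ℝ) ^ (9 : ℝ) = Real.log d ^ 9 := by
      rw [← Real.rpow_natCast]; norm_num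
    rw [e, Real.norm_of_nonneg (by positivity), Real.norm_of_nonneg (by positivity),
      ← Real.sqrt_eq_rpow] at hd
    calc K * Real.log d ^ 9 ≤ K * (1 / K * Real.sqrt d) := mul_le_mul_of_nonneg_left hd hKpos.le
      _ = Real.sqrt d := by field_simp
  obtain ⟨d₀, hd₀⟩ := eventually_atTop.1 (t1.and t2)
  refine ⟨d₀, fun d hd sg hsg1 hsg2 => ?_⟩
  obtain ⟨h1, h2⟩ := hd₀ d hd
  have hlog2 : 640 ≤ Real.log d := hK2.trans h1
  have hlog0 : 0 < Real.log d := by linarith only [hlog2]
  have hlog1 : 1 ≤ Real.log d := by linarith only [hlog2]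
  have hx0 : (0 : ℝ) < d := by
    rcases (Nat.cast_nonneg d : (0 : ℝ) ≤ d).eq_or_lt with h | h
    · exfalso
      rw [← h, Real.log_zero] at hlog2
      linarith only [hlog2]
    · exact h
  have hs0 : 0 < Real.sqrt d := Real.sqrt_pos.2 hx0
  have hsg0 : 0 < sg := lt_of_lt_of_le (by positivity) hsg1
  have hM : 1 ≤ sg * Real.log d := by
    rw [div_le_iff₀ hlog0] at hsg1
    exact hsg1
  have hMs : (sg * Real.log d) ^ 2 * Real.log d ^ 14 ≤ Real.sqrt d := by
    rw [le_div_iff₀ (by positivity)] at hsg2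
    have e1 : (sg * Real.log d ^ 8) ^ 2 ≤ ((d : ℝ) ^ (1 / 4 : ℝ)) ^ 2 :=
      pow_le_pow_left₀ (by positivity) hsg2 2
    have e2 : ((d : ℝ) ^ (1 / 4 : ℝ)) ^ 2 = Real.sqrt d := by
      rw [← Real.rpow_natCast, ← Real.rpow_mul hx0.le, Real.sqrt_eq_rpow]
      norm_num
    rw [e2] at e1
    calc (sg * Real.log d) ^ 2 * Real.log d ^ 14 = (sg * Real.log d ^ 8) ^ 2 := by ring
      _ ≤ _ := e1
  have hpw : ∀ k m : ℕ, k ≤ m → Real.log d ^ k ≤ Real.log d ^ m :=
    fun k m hk => pow_le_pow_right₀ hlog1 hk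
  have e12 : sg ^ 2 * Real.log d ^ 12 = (sg * Real.log d) ^ 2 * Real.log d ^ 10 := by ring
  have hM2 : 1 ≤ (sg * Real.log d) ^ 2 := one_le_pow₀ hM
  have hKs : K ≤ Real.sqrt d := by
    have h9 : Real.log d ≤ Real.log d ^ 9 := le_self_pow₀ hlog1 (by norm_num)
    have h10 : 0 ≤ Real.log d ^ 9 := by positivity
    nlinarith only [h9, h10, h1, h2, hK2]
  refine ⟨by linarith only [hlog2], hsg0, ?_, ?_, ?_, fun s₂ ha hb => ?_⟩
  · linarith only [hAK, hKs, hs0]
  · rw [div_le_div_iff₀ hs0 (by positivity), e12]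
    have e1 : 2 ≤ (sg * Real.log d) ^ 2 * Real.log d ^ 10 := by
      have e2 : Real.log d ≤ Real.log d ^ 10 := le_self_pow₀ hlog1 (by norm_num)
      have e3 : 1 * Real.log d ^ 10 ≤ (sg * Real.log d) ^ 2 * Real.log d ^ 10 :=
        mul_le_mul_of_nonneg_right hM2 (by positivity)
      linarith only [e2, e3, hlog2]
    have e4 := mul_le_mul_of_nonneg_right e1 hs0.le
    linarith only [e4]
  · rw [div_le_one (by positivity), e12]
    have e1 : (sg * Real.log d) ^ 2 * Real.log d ^ 10 ≤ (sg * Real.log d) ^ 2 * Real.log d ^ 14 :=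
      mul_le_mul_of_nonneg_left (hpw 10 14 (by norm_num)) (by positivity)
    linarith only [e1, hMs, hs0]
  · rw [e12]
    refine ⟨⌈Real.log d⌉₊, ?_⟩
    refine core d _ A C c (sg * Real.log d) s₂ (Real.log d) K hA hC hc hM hK2 h1 (Nat.le_ceil _) ?_
      h2 hMs (Real.exp_log hx0) ha hb ?_ ?_ ?_ ?_ ?_ ?_ ?_ ?_ ?_ ?_ ?_ ?_ ?_
    · have := Nat.ceil_lt_add_one (a := Real.log d) (by linarith only [hlog2])
      linarith only [this, hlog2]
    all_goals (rw [hK]; linarith only [p5, p6, p7, p8, p9, p10, p11, p12, p13, hK4, hA, hC])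

end Pool.Agent.N27.GH.AsyJ
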